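import Mathlib
import Pool.Agent.MP_5d9d0b_gt.M1.Bridge

/-!
The contact surgery slope `-1` is not characterizing for a Legendrian torus knot `T(3,-11)`.
-/

open scoped Manifold ContDiff
open Pool.Agent.MP_5d9d0b_gt.St

theorem Pool.Agent.Results.MP_5d9d0b_gt.MinusOne.result :
    ∃ L L' : ℝ → S3, IsLegendrian L ∧ IsLegendrian L' ∧ IsTorusKnot 3 (-11) L ∧ ¬ Isotopic L' L ∧
      ∃ (M : Type) (_ : TopologicalSpace M) (_ : T2Space M) (_ : CompactSpace M)
        (_ : ChartedSpace R3 M) (_ : IsManifold (𝓡 3) ∞ M) (α : M → R3 → ℝ),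
        IsContact α ∧ IsMinusOneSurgery (Set.range L) α ∧ IsMinusOneSurgery (Set.range L') α :=
  Pool.Agent.MP_5d9d0b_gt.M1.st_main
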